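import Pool.Agent.Y811.PC.Fin5

set_option autoImplicit false

/-! # Parabolic parameters: the set without attracting cycle of the one or two periods at hand

Variants of `t_AIDX`, `t_THIN` (helper151) and `t_UPRIM` (helper109) in which only the cycles of
period dividing `m * q` are assumed to be not attracting. -/

namespace Pool.Agent.Y811.IR

open Complex Metric Set Filter Topology MeasureTheory Pool.Agent.H712R2 Pool.Agent.H713R2 N62a1eb23
open Pool.Agent.Y811.PC Pool.Agent.Y109.PA Pool.Agent.Y151.PC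

/-- `z ^ d + c` has an attracting periodic point of period dividing `n` -/
def HypN (d n : ℕ) (c : ℂ) : Prop := ∃ z : ℂ, G d n c z = z ∧ ‖mu d n c z‖ < 1

theorem aidx_n : ∀ (d m q : ℕ) (c₀ z₀ : ℂ), PD d m q c₀ z₀ → ∀ al : ℂ → ℂ,
    AnalyticAt ℂ al c₀ → al c₀ = z₀ → (∀ᶠ c in 𝓝 c₀, G d m c (al c) = al c) →
      ∃ K ε : ℝ, 0 < K ∧ 0 < ε ∧ ∀ c ∈ ball c₀ ε,
        (∀ z, G d (m * q) c z = z → mu d (m * q) c z ≠ 1) → ¬ HypN d (m * q) c →
          |(1 / (1 - mu d m c (al c) ^ q)).re| ≤ K := by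
  intro d m q c₀ z₀ h al hal hal0 hev
  obtain ⟨ε, hε, hball⟩ := Metric.eventually_nhds_iff_ball.1 hev
  have hn : 1 ≤ m * q := Nat.mul_pos h.hm h.hq
  refine ⟨(d : ℝ) ^ (m * q), ε, ?_, hε, ?_⟩
  · have : (0 : ℝ) < d := by exact_mod_cast (show 0 < d by have := h.hd; omega)
    positivity
  · intro c hc hsimp hhyp
    have hfix := hball c hc
    have hGq : G d (m * q) c (al c) = al c := by
      unfold G
      rw [Function.iterate_mul]
      exact (show Function.IsFixedPt (G d m c) (al c) from hfix).iterate q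
    have hdiff : Differentiable ℂ (G d m c) := by
      have h0 : Differentiable ℂ (fc d c) := by
        intro z
        exact ((differentiable_id z).pow d).add_const c
      exact h0.iterate m
    have hmuq : mu d (m * q) c (al c) = mu d m c (al c) ^ q := by
      have h1 : HasDerivAt (G d m c) (mu d m c (al c)) (al c) := (hdiff (al c)).hasDerivAt
      have h2 := HasDerivAt.iterate (al c) h1 hfix q
      unfold mu G
      rw [Function.iterate_mul]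
      exact h2.deriv
    obtain ⟨h1, h2⟩ := strip_global h.hd hn hsimp (fun z hz => by
      by_contra hcon
      push Not at hcon
      exact hhyp ⟨z, hz, hcon⟩) hGq
    rw [hmuq] at h1 h2
    have h3 : (1 : ℝ) ≤ (d : ℝ) ^ (m * q) := one_le_pow₀ (by
      exact_mod_cast (show 1 ≤ d by have := h.hd; omega))
    rw [abs_le]
    constructor <;> linarith


theorem thin_n (hA : S_ANA) : ∀ (d m q : ℕ) (c₀ z₀ : ℂ), PD d m q c₀ z₀ → ∀ (al : ℂ → ℂ) (κ : ℂ),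
    AnalyticAt ℂ al c₀ → al c₀ = z₀ → (∀ᶠ c in 𝓝 c₀, G d m c (al c) = al c) →
      HasDerivAt (fun c => mu d m c (al c)) κ c₀ → κ ≠ 0 →
        ∃ (κ' : ℂ) (K ε : ℝ), κ' ≠ 0 ∧ 0 < K ∧ 0 < ε ∧ ∀ c ∈ ball c₀ ε,
          (∀ z, G d (m * q) c z = z → mu d (m * q) c z ≠ 1) → ¬ HypN d (m * q) c →
            |(κ' * (c - c₀)).re| ≤ K * ‖c - c₀‖ ^ (2 : ℝ) := by
  intro d m q c₀ z₀ hPD al κ hal hal0 hfix hder hκ
  obtain ⟨K, ε, hK, hε, hbd⟩ := aidx_n d m q c₀ z₀ hPD al hal hal0 hfix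
  have hmuA : AnalyticAt ℂ (fun c => mu d m c (al c)) c₀ := by
    have h1 := (hA d m c₀ z₀).2
    have h2 : AnalyticAt ℂ (fun c => (c, al c)) c₀ := analyticAt_id.prod hal
    exact AnalyticAt.comp_of_eq h1 h2 (by rw [hal0])
  obtain ⟨F, hFdef⟩ : ∃ F : ℂ → ℂ, F = fun c => 1 - mu d m c (al c) ^ q := ⟨_, rfl⟩
  have hFA : AnalyticAt ℂ F c₀ := by
    rw [hFdef]
    exact analyticAt_const.sub (hmuA.pow q)
  have hF0 : F c₀ = 0 := by
    rw [hFdef]
    show 1 - mu d m c₀ (al c₀) ^ q = 0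
    rw [hal0, hPD.mul.pow_eq_one, sub_self]
  have hq : q ≠ 0 := by have := hPD.hq; omega
  have hmu0 : mu d m c₀ (al c₀) ≠ 0 := by
    rw [hal0]
    exact hPD.mul.isUnit hq |>.ne_zero
  obtain ⟨κ', hκ'⟩ : ∃ κ' : ℂ, κ' = -((q : ℂ) * mu d m c₀ (al c₀) ^ (q - 1) * κ) := ⟨_, rfl⟩
  have hκ'0 : κ' ≠ 0 := by
    rw [hκ']
    exact neg_ne_zero.2 (mul_ne_zero (mul_ne_zero (Nat.cast_ne_zero.2 hq) (pow_ne_zero _ hmu0)) hκ)
  have hFd : HasDerivAt F κ' c₀ := by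
    rw [hFdef, hκ']
    exact (hder.pow q).const_sub 1
  obtain ⟨C, hC, hev⟩ := second_order hFA hFd hF0
  obtain ⟨δ, hδ, hball⟩ := Metric.eventually_nhds_iff_ball.1 hev
  refine ⟨κ', C + K * C ^ 2, min ε δ, hκ'0, by positivity, lt_min hε hδ, ?_⟩
  intro c hc h1 h2
  have hcε : c ∈ ball c₀ ε := ball_subset_ball (min_le_left _ _) hc
  have hcδ : c ∈ ball c₀ δ := ball_subset_ball (min_le_right _ _) hc
  have h3 := hbd c hcε h1 h2
  obtain ⟨h4, h5⟩ := hball c hcδ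
  have hFc : 1 - mu d m c (al c) ^ q = F c := by rw [hFdef]
  rw [hFc] at h3
  have h6 : |(F c).re| ≤ K * ‖F c‖ ^ 2 := by
    by_cases hF : F c = 0
    · rw [hF]
      simp
    · rw [one_div, inv_re, abs_div, abs_of_nonneg (normSq_nonneg _), div_le_iff₀
        (normSq_pos.2 hF), normSq_eq_norm_sq] at h3
      exact h3
  have h7 : |(κ' * (c - c₀)).re| ≤ |(F c).re| + ‖F c - κ' * (c - c₀)‖ := by
    have e1 : (κ' * (c - c₀)).re = (F c).re - (F c - κ' * (c - c₀)).re := by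
      rw [sub_re (F c)]
      ring
    rw [e1]
    exact (abs_sub _ _).trans (add_le_add_right (abs_re_le_norm _) _)
  have h8 : ‖F c‖ ^ 2 ≤ C ^ 2 * ‖c - c₀‖ ^ 2 := by
    rw [← mul_pow]
    exact pow_le_pow_left₀ (norm_nonneg _) h5 2
  rw [show (2 : ℝ) = ((2 : ℕ) : ℝ) by norm_num, Real.rpow_natCast]
  have h9 := mul_le_mul_of_nonneg_left h8 hK.le
  calc |(κ' * (c - c₀)).re| ≤ |(F c).re| + ‖F c - κ' * (c - c₀)‖ := h7
    _ ≤ K * (C ^ 2 * ‖c - c₀‖ ^ 2) + C * ‖c - c₀‖ ^ 2 := add_le_add (h6.trans h9) h4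
    _ = (C + K * C ^ 2) * ‖c - c₀‖ ^ 2 := by ring


theorem uprim_n (h1 : S_IFT) (hA : S_ANA) : ∀ (d m : ℕ) (c₀ z₀ : ℂ), PD d m 1 c₀ z₀ →
    deriv (fun c => G d m c z₀) c₀ ≠ 0 → deriv (deriv (G d m c₀)) z₀ ≠ 0 →
      ∃ (κ' : ℂ) (K ε : ℝ), κ' ≠ 0 ∧ 0 < K ∧ 0 < ε ∧ ∀ c ∈ ball c₀ ε, ¬ HypN d m c →
        |(κ' * (c - c₀)).re| ≤ K * ‖c - c₀‖ ^ (3 / 2 : ℝ) := by
  intro d m c₀ z₀ hP hD1 hD2
  have hmu : mu d m c₀ z₀ = 1 := IsPrimitiveRoot.one_right_iff.1 hP.mul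
  obtain ⟨hG, hM⟩ := hA d m c₀ z₀
  -- the curve of fixed points
  have han : AnalyticAt ℂ (fun p : ℂ × ℂ => G d m p.2 p.1 - p.1) (z₀, c₀) := by
    have e1 : AnalyticAt ℂ (fun p : ℂ × ℂ => (p.2, p.1)) (z₀, c₀) :=
      analyticAt_snd.prod analyticAt_fst
    have e2 : AnalyticAt ℂ (fun p : ℂ × ℂ => G d m p.2 p.1) (z₀, c₀) :=
      AnalyticAt.comp (g := fun p : ℂ × ℂ => G d m p.1 p.2) (f := fun p : ℂ × ℂ => (p.2, p.1))
        hG e1
    exact e2.sub analyticAt_fst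
  have hder : deriv (fun y => (fun p : ℂ × ℂ => G d m p.2 p.1 - p.1) (z₀, y)) c₀ ≠ 0 := by
    have : (fun y => (fun p : ℂ × ℂ => G d m p.2 p.1 - p.1) (z₀, y)) =
      fun y => G d m y z₀ - z₀ := rfl
    rw [this, deriv_sub_const]
    exact hD1
  obtain ⟨δ, η, gam, hδ, hη, hdiff, hgam0, hF, -⟩ := h1 (fun p : ℂ × ℂ => G d m p.2 p.1 - p.1)
    z₀ c₀ han (by simp only [hP.fix, sub_self]) hder
  have hVn : ball z₀ δ ∈ 𝓝 z₀ := ball_mem_nhds z₀ hδ
  have hgam : AnalyticAt ℂ gam z₀ := hdiff.analyticAt hVn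
  have hFix : ∀ z ∈ ball z₀ δ, G d m (gam z) z = z := fun z hz => sub_eq_zero.1 (hF z hz)
  -- derivatives
  have hgd : HasDerivAt gam (deriv gam z₀) z₀ := hgam.differentiableAt.hasDerivAt
  have hpair : HasDerivAt (fun z => (gam z, z)) (deriv gam z₀, 1) z₀ :=
    hgd.prodMk (hasDerivAt_id z₀)
  have hGs := hG.hasStrictFDerivAt
  set G' := fderiv ℂ (fun p : ℂ × ℂ => G d m p.1 p.2) (c₀, z₀) with hG'
  have hG1 : G' (1, 0) = deriv (fun c => G d m c z₀) c₀ := by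
    have e1 : HasDerivAt (fun c : ℂ => (c, z₀)) (1, 0) c₀ :=
      (hasDerivAt_id c₀).prodMk (hasDerivAt_const c₀ z₀)
    have e2 := (hGs.hasFDerivAt.comp_hasDerivAt c₀ e1).deriv
    exact e2.symm
  have hG2 : G' (0, 1) = 1 := by
    have e1 : HasDerivAt (fun z : ℂ => (c₀, z)) (0, 1) z₀ :=
      (hasDerivAt_const z₀ c₀).prodMk (hasDerivAt_id z₀)
    have e2 := (hGs.hasFDerivAt.comp_hasDerivAt z₀ e1).deriv
    exact e2.symm.trans hmu
  have hdec : ∀ x y : ℂ, ((x, y) : ℂ × ℂ) = x • ((1, 0) : ℂ × ℂ) + y • ((0, 1) : ℂ × ℂ) := by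
    intro x y
    ext <;> simp
  have hg0 : deriv gam z₀ = 0 := by
    have h2 : HasDerivAt (fun z => G d m (gam z) z) (G' (deriv gam z₀, 1)) z₀ := by
      have h3 : HasFDerivAt (fun p : ℂ × ℂ => G d m p.1 p.2) G' (gam z₀, z₀) := by
        rw [hgam0]
        exact hGs.hasFDerivAt
      exact HasFDerivAt.comp_hasDerivAt (f := fun z => (gam z, z)) z₀ h3 hpair
    have h4 : (fun z => G d m (gam z) z) =ᶠ[𝓝 z₀] fun z => z := by
      filter_upwards [hVn] with z hz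
      exact hFix z hz
    have h5 := h2.congr_of_eventuallyEq h4.symm
    have h6 := h5.unique (hasDerivAt_id' z₀)
    rw [hdec, map_add, map_smul, map_smul, hG1, hG2, smul_eq_mul, smul_eq_mul, mul_one] at h6
    have h7 : deriv gam z₀ * deriv (fun c => G d m c z₀) c₀ = 0 := by linear_combination h6
    exact (mul_eq_zero.1 h7).resolve_right hD1
  obtain ⟨k, hk, hgk⟩ := factor2 (F := fun z => gam z - c₀) (z₀ := z₀)
    (hgam.sub analyticAt_const) (by simp [hgam0]) (by rw [deriv_sub_const]; exact hg0)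
  -- the second derivative
  have hGc : AnalyticAt ℂ (G d m c₀) z₀ := by
    have e1 : AnalyticAt ℂ (fun z : ℂ => (c₀, z)) z₀ := analyticAt_const.prod analyticAt_id
    exact AnalyticAt.comp (g := fun p : ℂ × ℂ => G d m p.1 p.2) (f := fun z : ℂ => (c₀, z)) hG e1
  obtain ⟨k₂, hk₂, hk₂'⟩ := factor2 (F := fun z => G d m c₀ z - z) (z₀ := z₀)
    (hGc.sub analyticAt_id) (by simp [hP.fix]) (by
      have e1 : HasDerivAt (fun z => G d m c₀ z - z) (mu d m c₀ z₀ - 1) z₀ :=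
        (hGc.differentiableAt.hasDerivAt).sub (hasDerivAt_id' z₀)
      rw [e1.deriv, hmu, sub_self])
  have hk₂0 : k₂ z₀ ≠ 0 := by
    intro h0
    apply hD2
    have e1 : G d m c₀ = fun z => z + (z - z₀) ^ 2 * k₂ z := by
      funext z
      rw [← hk₂' z]
      ring
    have e2 : deriv (G d m c₀) =ᶠ[𝓝 z₀] fun z => 1 + deriv (fun z => (z - z₀) ^ 2 * k₂ z) z := by
      filter_upwards [hk₂.eventually_analyticAt] with z hz
      have e3 : DifferentiableAt ℂ (fun z => (z - z₀) ^ 2 * k₂ z) z :=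
        DifferentiableAt.mul (by fun_prop) hz.differentiableAt
      rw [e1]
      exact ((hasDerivAt_id' z).add e3.hasDerivAt).deriv
    rw [e2.deriv_eq, deriv_const_add]
    have e4 := dd hk₂
    rw [h0, mul_zero] at e4
    exact e4
  have hk0 : k z₀ ≠ 0 := by
    intro h0
    obtain ⟨M, hM0, hMb⟩ := (hGs.isBigO_sub).exists_pos
    rw [Asymptotics.IsBigOWith] at hMb
    have t1 : Tendsto (fun z : ℂ => (((gam z, z), (c₀, z)) : (ℂ × ℂ) × (ℂ × ℂ))) (𝓝 z₀)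
        (𝓝 ((c₀, z₀), (c₀, z₀))) := by
      have e1 : ContinuousAt (fun z : ℂ => (((gam z, z), (c₀, z)) : (ℂ × ℂ) × (ℂ × ℂ))) z₀ :=
        (hgam.continuousAt.prodMk continuousAt_id).prodMk (continuousAt_const.prodMk continuousAt_id)
      have e2 := e1.tendsto
      rwa [hgam0] at e2
    have h2 := t1.eventually hMb
    have h3 : ∀ᶠ z in 𝓝[≠] z₀, ‖k₂ z‖ ≤ M * ‖k z‖ := by
      filter_upwards [nhdsWithin_le_nhds h2, nhdsWithin_le_nhds hVn, self_mem_nhdsWithin]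
        with z hz1 hz2 hz3
      have hz0 : z - z₀ ≠ 0 := sub_ne_zero.2 hz3
      rw [hFix z hz2] at hz1
      have e1 : z - G d m c₀ z = -((z - z₀) ^ 2 * k₂ z) := by
        rw [← hk₂' z]
        ring
      have e2 : ((gam z, z) : ℂ × ℂ) - (c₀, z) = ((z - z₀) ^ 2 * k z, 0) := by
        rw [← hgk z]
        ext <;> simp
      rw [e1, e2, norm_neg, norm_mul, Prod.norm_mk, norm_zero, max_eq_left (norm_nonneg _),
        norm_mul] at hz1
      have hp : 0 < ‖(z - z₀) ^ 2‖ := norm_pos_iff.2 (pow_ne_zero _ hz0)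
      have e3 : ‖(z - z₀) ^ 2‖ * ‖k₂ z‖ ≤ ‖(z - z₀) ^ 2‖ * (M * ‖k z‖) := by
        calc _ ≤ _ := hz1
          _ = _ := by ring
      exact le_of_mul_le_mul_left e3 hp
    have t2 : Tendsto (fun z => ‖k₂ z‖) (𝓝[≠] z₀) (𝓝 ‖k₂ z₀‖) :=
      (hk₂.continuousAt.norm.tendsto).mono_left nhdsWithin_le_nhds
    have t3 : Tendsto (fun z => M * ‖k z‖) (𝓝[≠] z₀) (𝓝 (M * ‖k z₀‖)) :=
      ((hk.continuousAt.norm.tendsto).const_mul M).mono_left nhdsWithin_le_nhds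
    have h4 := le_of_tendsto_of_tendsto t2 t3 h3
    rw [h0, norm_zero, mul_zero] at h4
    exact hk₂0 (norm_le_zero_iff.1 h4)
  -- the multiplier
  have hpa : AnalyticAt ℂ (fun z => (gam z, z)) z₀ := hgam.prod analyticAt_id
  have hM' : AnalyticAt ℂ (fun p : ℂ × ℂ => mu d m p.1 p.2) (gam z₀, z₀) := by
    rw [hgam0]
    exact hM
  have hl : AnalyticAt ℂ (fun z => mu d m (gam z) z) z₀ :=
    AnalyticAt.comp (g := fun p : ℂ × ℂ => mu d m p.1 p.2) (f := fun z => (gam z, z)) hM' hpa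
  have hl0 : mu d m (gam z₀) z₀ = 1 := by rw [hgam0, hmu]
  have hlD : deriv (fun z => mu d m (gam z) z) z₀ = deriv (deriv (G d m c₀)) z₀ := by
    have hMs := hM.hasStrictFDerivAt.hasFDerivAt
    set M' := fderiv ℂ (fun p : ℂ × ℂ => mu d m p.1 p.2) (c₀, z₀) with hM'
    have e1 : HasDerivAt (fun z : ℂ => (c₀, z)) (0, 1) z₀ :=
      (hasDerivAt_const z₀ c₀).prodMk (hasDerivAt_id z₀)
    have e2 := (hMs.comp_hasDerivAt z₀ e1).deriv
    have e3 : deriv (deriv (G d m c₀)) z₀ = M' (0, 1) := e2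
    have h3 : HasFDerivAt (fun p : ℂ × ℂ => mu d m p.1 p.2) M' (gam z₀, z₀) := by
      rw [hgam0]
      exact hMs
    have e4 := (HasFDerivAt.comp_hasDerivAt (f := fun z => (gam z, z)) z₀ h3 hpair).deriv
    rw [hg0] at e4
    rw [e3]
    exact e4
  obtain ⟨κ', K, ε, h2, h3, h4, h5⟩ := core hk hk0 hgk hl hl0 (by rw [hlD]; exact hD2)
    (ball z₀ δ) hVn
  refine ⟨κ', K, ε, h2, h3, h4, fun c hc hH => h5 c hc fun z hz hzc => ?_⟩
  by_contra hlt
  push Not at hlt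
  apply hH
  refine ⟨z, ?_, ?_⟩
  · rw [← hzc]
    exact hFix z hz
  · rw [← hzc]
    exact hlt


/-- Near a parabolic parameter the parameters such that no cycle of period dividing `m * q` is
attracting have area `O(r ^ (1 + e))`. -/
theorem dens_n {d m q : ℕ} {c₀ z₀ : ℂ} (h : PD d m q c₀ z₀) {e : ℝ}
    (he : e = if mu d m c₀ z₀ = 1 then 3 / 2 else 2) :
    ∃ C r₀ : ℝ, 0 < C ∧ 0 < r₀ ∧ ∀ r : ℝ, 0 < r → r < r₀ →
      volume (ball c₀ r ∩ {c | ¬ HypN d (m * q) c}) ≤ ENNReal.ofReal (C * r ^ (1 + e)) ∧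
      ∀ (c₁ : ℂ) (s : ℝ), ball c₁ s ⊆ ball c₀ r ∩ {c | ¬ HypN d (m * q) c} → s ≤ C * r ^ e := by
  obtain ⟨ε₀, hε⟩ := rates h
  obtain ⟨⟨a, ha⟩, -, hmem, -⟩ := hFATOU d m q c₀ z₀ h
  by_cases hmu : mu d m c₀ z₀ = 1
  · rw [if_pos hmu] at he
    subst he
    have hq1 : q = 1 := by
      have h2 := h.mul
      rw [hmu] at h2
      exact h2.unique IsPrimitiveRoot.one
    subst hq1
    have h2 : deriv (fun c => G d m c z₀) c₀ ≠ 0 := hTRANS1 d m c₀ z₀ h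
    obtain ⟨h3, h4⟩ := hPRIM d m c₀ z₀ ε₀ a h hε ha h2
    obtain ⟨κ', K, ε, hκ, hK, hε', hS⟩ := uprim_n hIFT hANA d m c₀ z₀ h h2 h3
    rw [mul_one]
    exact hSTRIP κ' c₀ K (3 / 2) ε {c | ¬ HypN d m c} ∅ hκ (by norm_num)
      hK hε' Set.finite_empty (fun c hc hcS _ => hS c hc hcS)
  · rw [if_neg hmu] at he
    subst he
    obtain ⟨al, κ, h1, h2, h3, h4, h5, h6⟩ := hSAT d m q c₀ z₀ ε₀ h hε hmu
    obtain ⟨κ', K, ε, hκ, hK, hε', hS⟩ := thin_n hANA d m q c₀ z₀ h al κ h1 h2 h3 h4 h5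
    have hfin := hFIN d (m * q) h.hd (Nat.mul_pos h.hm h.hq) 1 (by simp)
    exact hSTRIP κ' c₀ K 2 ε {c | ¬ HypN d (m * q) c}
      {c : ℂ | ∃ z, G d (m * q) c z = z ∧ mu d (m * q) c z = 1} hκ (by norm_num) hK hε' hfin
      (fun c hc hcS hcE => hS c hc (fun z hz h8 => hcE ⟨z, hz, h8⟩) hcS)

end Pool.Agent.Y811.IR
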