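import Pool.Agent.Y811.IR.Stm
import Pool.Agent.Y297.IR.Branch
import Pool.Agent.Y304.IR.Fatou
import Pool.Agent.Y555.IR.Basin
import Pool.Agent.Y606.IR.Pull
import Pool.Agent.Y770.IR.Surj
import Pool.Agent.Y921.IR2.End

set_option autoImplicit false

/-! # An attracting cycle excludes renormalizations of larger period -/

open Filter Topology Metric Set

namespace Pool.Agent.Y811.IR

theorem hSURJ : S_SURJ := Pool.Agent.Y770.IR.t_SURJ Pool.Agent.Y555.IR.t_BASIN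

theorem hFATOU2 : S_FATOU :=
  Pool.Agent.Y304.IR.t_FATOU hSURJ (Pool.Agent.Y297.IR.t_BRANCH Pool.Agent.Y555.IR.t_BASIN hSURJ)

/-- An attracting cycle of period dividing `N` excludes renormalizations of period larger than `N`. -/
theorem no_ren {c : ℂ} {N : ℕ} {a : ℂ} (h : Attr c N a) {p : ℕ} (hp : N < p) {U : Set ℂ}
    (hU : IsOpen U) (h0 : (0 : ℂ) ∈ U) (h1 : ∀ n : ℕ, 1 ≤ n → (q c)^[n * p] 0 ∈ U)
    (h2 : closure U ⊆ (q c)^[p] '' U)
    (h3 : Disjoint ((q c)^[p] '' frontier U) ((q c)^[p] '' U))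
    (h4 : ∀ z ∈ U, deriv ((q c)^[p]) z = 0 → z = 0) (h5 : deriv (deriv ((q c)^[p])) 0 ≠ 0) :
    False := by
  obtain ⟨b, hb, hb0⟩ := hFATOU2 c N a h
  exact Pool.Agent.Y921.IR2.t_END hSURJ c N b hb hb0 p hp U
    (Pool.Agent.Y606.IR.t_PULL Pool.Agent.Y555.IR.t_BASIN c N b hb hb0 p (by omega) U hU h0 h1 h2 h3)
    h4 h5

end Pool.Agent.Y811.IR
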