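import Mathlib

set_option autoImplicit false

open Filter Topology Metric Set

namespace Pool.Agent.Y811.IR

/-- the quadratic polynomial `z ^ 2 + c` -/
def q (c : ℂ) (z : ℂ) : ℂ := z ^ 2 + c

/-- basin of `a` under `F` -/
def Basin (F : ℂ → ℂ) (a : ℂ) : Set ℂ := {z | Tendsto (fun n : ℕ => F^[n] z) atTop (𝓝 a)}

/-- immediate basin of `a` under `F` -/
def Imm (F : ℂ → ℂ) (a : ℂ) : Set ℂ := connectedComponentIn (Basin F a) a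

/-- `a` is an attracting periodic point of `q c`, of period dividing `N` -/
def Attr (c : ℂ) (N : ℕ) (a : ℂ) : Prop := 1 ≤ N ∧ (q c)^[N] a = a ∧ ‖deriv ((q c)^[N]) a‖ < 1

/-- basins are open and attract compact sets uniformly -/
def S_BASIN : Prop := ∀ (c : ℂ) (N : ℕ) (a : ℂ), Attr c N a →
  IsOpen (Basin ((q c)^[N]) a) ∧ a ∈ Basin ((q c)^[N]) a ∧
  ∀ K : Set ℂ, IsCompact K → K ⊆ Basin ((q c)^[N]) a → ∀ ε : ℝ, 0 < ε →
    ∃ n0 : ℕ, ∀ n : ℕ, n0 ≤ n → ∀ z ∈ K, (q c)^[n * N] z ∈ ball a ε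

/-- `q c` maps the immediate basin of `a` onto that of `q c a` -/
def S_SURJ : Prop := ∀ (c : ℂ) (N : ℕ) (a : ℂ), Attr c N a →
  Attr c N (q c a) ∧ q c '' Imm ((q c)^[N]) a = Imm ((q c)^[N]) (q c a) ∧
  ∀ z : ℂ, q c z ∈ Basin ((q c)^[N]) (q c a) → z ∈ Basin ((q c)^[N]) a

/-- inverse branches on a disc, if no immediate basin of the cycle contains `0`
(`(q c)^[(N - 1) * n] a` is the point of the cycle `n` steps before `a`) -/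
def S_BRANCH : Prop := ∀ (c : ℂ) (N : ℕ) (a : ℂ), Attr c N a →
  (∀ i : ℕ, (0 : ℂ) ∉ Imm ((q c)^[N]) ((q c)^[i] a)) →
  ∃ r : ℝ, 0 < r ∧ ∀ n : ℕ, ∃ h : ℂ → ℂ, DifferentiableOn ℂ h (ball a r) ∧
    h a = (q c)^[(N - 1) * n] a ∧ (∀ z ∈ ball a r, (q c)^[n] (h z) = z) ∧
    ∀ z ∈ ball a r, h z ∈ Imm ((q c)^[N]) ((q c)^[(N - 1) * n] a)

/-- Fatou: the immediate basin of some point of the cycle contains the critical point -/
def S_FATOU : Prop := ∀ (c : ℂ) (N : ℕ) (a : ℂ), Attr c N a →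
  ∃ b : ℂ, Attr c N b ∧ (0 : ℂ) ∈ Imm ((q c)^[N]) b

/-- the immediate basin lies in the domain of every renormalization -/
def S_PULL : Prop := ∀ (c : ℂ) (N : ℕ) (b : ℂ), Attr c N b → (0 : ℂ) ∈ Imm ((q c)^[N]) b →
  ∀ p : ℕ, 1 ≤ p → ∀ U : Set ℂ, IsOpen U → (0 : ℂ) ∈ U →
    (∀ n : ℕ, 1 ≤ n → (q c)^[n * p] 0 ∈ U) → closure U ⊆ (q c)^[p] '' U →
    Disjoint ((q c)^[p] '' frontier U) ((q c)^[p] '' U) → Imm ((q c)^[N]) b ⊆ U

/-- contradiction for periods larger than `N` -/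
def S_END : Prop := ∀ (c : ℂ) (N : ℕ) (b : ℂ), Attr c N b → (0 : ℂ) ∈ Imm ((q c)^[N]) b →
  ∀ p : ℕ, N < p → ∀ U : Set ℂ, Imm ((q c)^[N]) b ⊆ U →
    (∀ z ∈ U, deriv ((q c)^[p]) z = 0 → z = 0) → deriv (deriv ((q c)^[p])) 0 ≠ 0 → False

end Pool.Agent.Y811.IR
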